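import Pool.Agent.X160.Ten.Main

set_option autoImplicit false

/-!
# Spaces with an isometric embedding into tensors
-/

namespace Pool.Agent.X160.Ten

open scoped InnerProductSpace
open Finset

variable {n k : ℕ} {V : Type} [NormedAddCommGroup V] [InnerProductSpace ℝ V]

/-- The isometric embedding. -/
noncomputable def emb (J : V →ₗ[ℝ] ((Fin k → Fin n) → ℝ)) (hJ : ∀ x, ‖x‖ ^ 2 = ∑ i, J x i ^ 2) :
    V →ₗᵢ[ℝ] Tn n k where
  toFun x := WithLp.toLp 2 (J x)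
  map_add' x y := by
    rw [map_add]
    rfl
  map_smul' c x := by
    rw [map_smul]
    rfl
  norm_map' x := by
    have h : ‖(WithLp.toLp 2 (J x) : Tn n k)‖ ^ 2 = ‖x‖ ^ 2 := by
      rw [EuclideanSpace.real_norm_sq_eq, hJ]
    exact (sq_eq_sq₀ (norm_nonneg _) (norm_nonneg _)).mp h

theorem emb_apply (J : V →ₗ[ℝ] ((Fin k → Fin n) → ℝ)) (hJ : ∀ x, ‖x‖ ^ 2 = ∑ i, J x i ^ 2)
    (x : V) (i : Fin k → Fin n) : emb J hJ x i = J x i := rfl

/-- **Rotation invariant bodies in a space embedded in tensors of one type.** -/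
theorem cover_emb {r : ℕ} (hk : 1 ≤ k) (hr : 1 ≤ r) (hkn : k < n)
    (J : V →ₗ[ℝ] ((Fin k → Fin n) → ℝ)) (hJ : ∀ x, ‖x‖ ^ 2 = ∑ i, J x i ^ 2)
    (hrot : ∀ U : Matrix.specialOrthogonalGroup (Fin n) ℝ, ∀ v : V, ∃ w : V, ∀ i,
      J w i = ∑ j : Fin k → Fin n, (∏ l, (U : Matrix (Fin n) (Fin n) ℝ) (i l) (j l)) * J v j)
    (s : ℝ)
    (htr : ∀ v : V, ∀ l m : Fin k, l ≠ m → ∀ i : Fin k → Fin n,
      ∑ b, J v (Function.update (Function.update i l b) m b) = 0)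
    (hsw : ∀ v : V, ∀ i : Fin k → Fin n, ∑ l : Fin k, ∑ m ∈ univ.filter (fun m => m ≠ l),
      J v (i ∘ Equiv.swap l m) = s * J v i)
    (col : Fin k → Fin r)
    (hcol : ∀ v : V, ∀ l m : Fin k, l ≠ m → col l = col m → ∀ i,
      J v (i ∘ Equiv.swap l m) = -J v i) (K : Set V)
    (hd : 2 ≤ Module.finrank ℝ V) (hK : Convex ℝ K) (hKc : IsCompact K)
    (hKi : (interior K).Nonempty) (a : ℝ) (ha : 0 < a) (hKa : ∀ x ∈ K, -(a⁻¹ • x) ∈ K)
    (hinv : ∀ U : Matrix.specialOrthogonalGroup (Fin n) ℝ, ∀ x ∈ K, ∀ y : V,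
      (∀ i, J y i = ∑ j : Fin k → Fin n,
        (∏ l, (U : Matrix (Fin n) (Fin n) ℝ) (i l) (j l)) * J x j) → y ∈ K) :
    ∃ T : Finset V, K ⊆ ⋃ t ∈ T, (fun x => t + x) '' interior K ∧
      (T.card : ℝ) ≤ 1 + 13 * Module.finrank ℝ V * Real.log (2 * Module.finrank ℝ V ^ 2
        + 2 * Module.finrank ℝ V + 1) * 2 ^ Module.finrank ℝ V
        * Real.exp (-(((n : ℝ) - k) / (960 * r * (1 + a) ^ 2))) := by
  classical
  set Je := emb J hJ with hJe
  set W : Submodule ℝ (Tn n k) := LinearMap.range Je.toLinearMap with hWdef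
  let φ : V ≃ₗᵢ[ℝ] W := Je.equivRange
  have hφ : ∀ v : V, ((φ v : W) : Tn n k) = Je v := fun v => rfl
  have hmem : ∀ x ∈ W, ∃ v : V, Je v = x := by
    rintro x ⟨v, hv⟩
    exact ⟨v, hv⟩
  have hW : RotInv W := by
    intro U x hx
    obtain ⟨v, rfl⟩ := hmem x hx
    obtain ⟨w, hw⟩ := hrot U v
    refine ⟨w, ?_⟩
    ext i
    exact hw i
  have w2 : ∀ x ∈ W, Traceless x := by
    intro x hx
    obtain ⟨v, rfl⟩ := hmem x hx
    exact htr v
  have w3 : ∀ x ∈ W, SwapSum s x := by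
    intro x hx
    obtain ⟨v, rfl⟩ := hmem x hx
    exact hsw v
  have w4 : ∀ x ∈ W, ColSkew col x := by
    intro x hx
    obtain ⟨v, rfl⟩ := hmem x hx
    exact hcol v
  have hfr : Module.finrank ℝ W = Module.finrank ℝ V := φ.toLinearEquiv.finrank_eq.symm
  have hint : interior (φ '' K) = φ '' interior K := (φ.toHomeomorph.image_interior K).symm
  obtain ⟨T, hT1, hT2⟩ := cover_type hk hr hkn W hW s w2 w3 col w4 (φ '' K) (by rw [hfr]; exact hd)
    (hK.linear_image φ.toLinearEquiv.toLinearMap) (hKc.image φ.continuous)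
    (by rw [hint]; exact hKi.image φ) a ha (by
      rintro _ ⟨x, hx, rfl⟩
      exact ⟨-(a⁻¹ • x), hKa x hx, by rw [map_neg, map_smul]⟩) (by
      rintro U _ ⟨x, hx, rfl⟩ y hy
      refine ⟨φ.symm y, hinv U x hx _ fun i => ?_, φ.apply_symm_apply y⟩
      have h1 : (J (φ.symm y) : (Fin k → Fin n) → ℝ) i = ((φ (φ.symm y) : W) : Tn n k) i := rfl
      rw [h1, φ.apply_symm_apply, hy]
      rfl)
  rw [hfr] at hT2
  refine ⟨T.image φ.symm, ?_, ?_⟩
  · intro x hx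
    have h := hT1 ⟨x, hx, rfl⟩
    simp only [Set.mem_iUnion] at h ⊢
    obtain ⟨t, ht, w, hw, hwt⟩ := h
    rw [hint] at hw
    obtain ⟨w', hw', rfl⟩ := hw
    refine ⟨φ.symm t, Finset.mem_image_of_mem _ ht, w', hw', ?_⟩
    apply φ.injective
    simpa using hwt
  · refine le_trans ?_ hT2
    exact_mod_cast Finset.card_image_le

/-- The dimension of a space isometric to the space of alternating tensors. -/
theorem finrank_emb (J : V →ₗ[ℝ] ((Fin k → Fin n) → ℝ)) (hJ : ∀ x, ‖x‖ ^ 2 = ∑ i, J x i ^ 2)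
    (h : ∀ x : (Fin k → Fin n) → ℝ, (∃ v, J v = x) ↔
      ∀ l m : Fin k, l ≠ m → ∀ i, x (i ∘ Equiv.swap l m) = -x i) :
    Module.finrank ℝ V = n.choose k := by
  have e : LinearMap.range (emb J hJ).toLinearMap = Alt n k := by
    ext x
    rw [mem_alt]
    have h1 := h x.ofLp
    refine Iff.trans ?_ h1
    constructor
    · rintro ⟨v, hv⟩
      exact ⟨v, by rw [← hv]; rfl⟩
    · rintro ⟨v, hv⟩
      refine ⟨v, ?_⟩
      show (WithLp.toLp 2 (J v) : Tn n k) = x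
      rw [hv]
  have h2 : Module.finrank ℝ V = Module.finrank ℝ (LinearMap.range (emb J hJ).toLinearMap) :=
    (LinearEquiv.ofInjective (emb J hJ).toLinearMap (emb J hJ).injective).finrank_eq
  rw [h2, e, finrank_alt]

theorem finrank_emb_le (J : V →ₗ[ℝ] ((Fin k → Fin n) → ℝ))
    (hJ : ∀ x, ‖x‖ ^ 2 = ∑ i, J x i ^ 2) : Module.finrank ℝ V ≤ n ^ k := by
  have h := LinearMap.finrank_le_finrank_of_injective (f := (emb J hJ).toLinearMap)
    (emb J hJ).injective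
  refine h.trans ?_
  simp

end Pool.Agent.X160.Ten
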