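import Pool.Agent.X160.Ten.Cas
import Pool.Agent.Y368.Lie.Matrix

set_option autoImplicit false

/-!
# The representation of `SO(n)` on tensors
-/

namespace Pool.Agent.X160.Ten

open scoped InnerProductSpace
open Finset
open Pool.Agent.TH591.Lie

variable {n k : ℕ}

/-- The action of the matrix `U` on all slots of a tensor. -/
noncomputable def act (U : Matrix (Fin n) (Fin n) ℝ) : Tn n k →ₗ[ℝ] Tn n k where
  toFun x := WithLp.toLp 2 fun i => ∑ j, (∏ l, U (i l) (j l)) * x j
  map_add' x y := by
    ext i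
    simp [mul_add, Finset.sum_add_distrib]
  map_smul' c x := by
    ext i
    simp only [PiLp.smul_apply, smul_eq_mul, RingHom.id_apply, Finset.mul_sum]
    refine Finset.sum_congr rfl fun b _ => ?_
    ring

theorem act_apply (U : Matrix (Fin n) (Fin n) ℝ) (x : Tn n k) (i : Fin k → Fin n) :
    act U x i = ∑ j, (∏ l, U (i l) (j l)) * x j := rfl

theorem prod_one (i j : Fin k → Fin n) :
    ∏ l, (1 : Matrix (Fin n) (Fin n) ℝ) (i l) (j l) = if i = j then 1 else 0 := by
  simp only [Matrix.one_apply, Finset.prod_ite_zero, Finset.prod_const_one]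
  congr 1
  simp [funext_iff]

theorem act_one (x : Tn n k) : act 1 x = x := by
  ext i
  rw [act_apply]
  simp only [prod_one, ite_mul, one_mul, zero_mul, Finset.sum_ite_eq, Finset.mem_univ, if_true]

theorem act_mul (U V : Matrix (Fin n) (Fin n) ℝ) (x : Tn n k) :
    act (U * V) x = act U (act V x) := by
  ext i
  simp only [act_apply, Matrix.mul_apply, Finset.mul_sum]
  rw [Finset.sum_comm]
  refine Finset.sum_congr rfl fun j _ => ?_
  rw [Finset.prod_univ_sum, Fintype.piFinset_univ, Finset.sum_mul]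
  refine Finset.sum_congr rfl fun m _ => ?_
  rw [Finset.prod_mul_distrib]
  ring

theorem act_inner (U : Matrix (Fin n) (Fin n) ℝ) (x y : Tn n k) :
    ⟪act U x, y⟫_ℝ = ⟪x, act U.transpose y⟫_ℝ := by
  rw [inner_eq, inner_eq]
  simp only [act_apply, Finset.mul_sum, Finset.sum_mul, Matrix.transpose_apply]
  rw [Finset.sum_comm]
  refine Finset.sum_congr rfl fun i _ => Finset.sum_congr rfl fun j _ => ?_
  ring

theorem act_norm (U : Matrix.specialOrthogonalGroup (Fin n) ℝ) (x : Tn n k) :
    ‖act (U : Matrix (Fin n) (Fin n) ℝ) x‖ = ‖x‖ := by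
  have h1 : (U : Matrix (Fin n) (Fin n) ℝ).transpose * (U : Matrix (Fin n) (Fin n) ℝ) = 1 := by
    have h2 := (Matrix.mem_specialOrthogonalGroup_iff.mp U.2).1
    have h3 := (Matrix.mem_orthogonalGroup_iff' (Fin n) ℝ).mp h2
    simpa [Matrix.star_eq_conjTranspose] using h3
  have h := act_inner (U : Matrix (Fin n) (Fin n) ℝ) x (act (U : Matrix (Fin n) (Fin n) ℝ) x)
  rw [← act_mul, h1, act_one, real_inner_self_eq_norm_sq, real_inner_self_eq_norm_sq] at h
  exact (sq_eq_sq₀ (norm_nonneg _) (norm_nonneg _)).mp h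

/-- The space `W` of tensors is invariant under rotations. -/
def RotInv (W : Submodule ℝ (Tn n k)) : Prop :=
  ∀ U : Matrix.specialOrthogonalGroup (Fin n) ℝ, ∀ x ∈ W, act (U : Matrix (Fin n) (Fin n) ℝ) x ∈ W

/-- The operator on `W` given by a rotation. -/
noncomputable def repL (W : Submodule ℝ (Tn n k)) (hW : RotInv W)
    (U : Matrix.specialOrthogonalGroup (Fin n) ℝ) : W →ₗ[ℝ] W :=
  (act (U : Matrix (Fin n) (Fin n) ℝ)).restrict (hW U)

theorem repL_coe (W : Submodule ℝ (Tn n k)) (hW : RotInv W)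
    (U : Matrix.specialOrthogonalGroup (Fin n) ℝ) (x : W) :
    ((repL W hW U x : W) : Tn n k) = act (U : Matrix (Fin n) (Fin n) ℝ) (x : Tn n k) := rfl

theorem repL_mul (W : Submodule ℝ (Tn n k)) (hW : RotInv W)
    (U V : Matrix.specialOrthogonalGroup (Fin n) ℝ) (x : W) :
    repL W hW (U * V) x = repL W hW U (repL W hW V x) := by
  apply Subtype.ext
  rw [repL_coe, repL_coe, repL_coe, Submonoid.coe_mul, act_mul]

theorem repL_one (W : Submodule ℝ (Tn n k)) (hW : RotInv W) (x : W) : repL W hW 1 x = x := by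
  apply Subtype.ext
  rw [repL_coe, Submonoid.coe_one, act_one]

theorem repL_norm (W : Submodule ℝ (Tn n k)) (hW : RotInv W)
    (U : Matrix.specialOrthogonalGroup (Fin n) ℝ) (x : W) : ‖repL W hW U x‖ = ‖x‖ := by
  rw [← Submodule.norm_coe, ← Submodule.norm_coe, repL_coe, act_norm]

/-- The linear isometry equivalence of `W` given by a rotation. -/
noncomputable def repE (W : Submodule ℝ (Tn n k)) (hW : RotInv W)
    (U : Matrix.specialOrthogonalGroup (Fin n) ℝ) : W ≃ₗᵢ[ℝ] W where
  toLinearEquiv :=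
    { repL W hW U with
      invFun := repL W hW U⁻¹
      left_inv := fun x => by
        have h := repL_mul W hW U⁻¹ U x
        rw [inv_mul_cancel, repL_one] at h
        exact h.symm
      right_inv := fun x => by
        have h := repL_mul W hW U U⁻¹ x
        rw [mul_inv_cancel, repL_one] at h
        exact h.symm }
  norm_map' := repL_norm W hW U

theorem repE_apply (W : Submodule ℝ (Tn n k)) (hW : RotInv W)
    (U : Matrix.specialOrthogonalGroup (Fin n) ℝ) (x : W) : repE W hW U x = repL W hW U x := rfl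

/-- The representation of `SO(n)` on an invariant space of tensors. -/
noncomputable def rep (W : Submodule ℝ (Tn n k)) (hW : RotInv W) :
    Matrix.specialOrthogonalGroup (Fin n) ℝ →* (W ≃ₗᵢ[ℝ] W) where
  toFun := repE W hW
  map_one' := by
    ext1 x
    rw [repE_apply, repL_one]
    rfl
  map_mul' U V := by
    ext1 x
    rw [repE_apply, repL_mul]
    rfl

theorem rep_apply (W : Submodule ℝ (Tn n k)) (hW : RotInv W)
    (U : Matrix.specialOrthogonalGroup (Fin n) ℝ) (x : W) :
    ((rep W hW U x : W) : Tn n k) = act (U : Matrix (Fin n) (Fin n) ℝ) x := rfl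

theorem polyRep_rep (W : Submodule ℝ (Tn n k)) (hW : RotInv W) : PolyRep (rep W hW) k := by
  intro x y
  refine ⟨∑ i : Fin k → Fin n, ∑ j : Fin k → Fin n,
    MvPolynomial.C ((x : Tn n k) j * (y : Tn n k) i) * ∏ l, MvPolynomial.X (i l, j l), ?_, ?_⟩
  · refine (MvPolynomial.totalDegree_finsetSum _ _).trans (Finset.sup_le fun p _ => ?_)
    refine (MvPolynomial.totalDegree_finsetSum _ _).trans (Finset.sup_le fun j _ => ?_)
    refine (MvPolynomial.totalDegree_mul _ _).trans ?_
    rw [MvPolynomial.totalDegree_C, zero_add]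
    refine (MvPolynomial.totalDegree_finsetProd _ _).trans ?_
    simp [MvPolynomial.totalDegree_X]
  · intro g
    rw [Submodule.coe_inner, rep_apply, real_inner_comm, inner_eq]
    simp only [act_apply, map_sum, map_mul, map_prod,
      MvPolynomial.eval_C, MvPolynomial.eval_X, Finset.mul_sum]
    refine Finset.sum_congr rfl fun p _ => ?_
    refine Finset.sum_congr rfl fun j _ => ?_
    ring

theorem prod_erase (l : Fin k) (i j : Fin k → Fin n) :
    ∏ m ∈ univ.erase l, (1 : Matrix (Fin n) (Fin n) ℝ) (i m) (j m)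
      = ∑ b, if j = Function.update i l b then 1 else 0 := by
  simp only [Matrix.one_apply, Finset.prod_ite_zero, Finset.prod_const_one]
  by_cases h : ∀ m ∈ univ.erase l, i m = j m
  · rw [if_pos h]
    have h2 : ∀ b, (j = Function.update i l b) ↔ b = j l := by
      intro b
      constructor
      · intro h3
        rw [h3]
        simp
      · intro h3
        subst h3
        ext m
        congr 1
        rcases eq_or_ne m l with h4 | h4
        · subst h4; simp
        · rw [Function.update_of_ne h4]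
          exact (h m (by simp [h4])).symm
    simp [h2]
  · rw [if_neg h]
    symm
    refine Finset.sum_eq_zero fun b _ => ?_
    rw [if_neg]
    intro h3
    apply h
    intro m hm
    rw [h3, Function.update_of_ne (Finset.ne_of_mem_erase hm)]

theorem sum_erase (M : Matrix (Fin n) (Fin n) ℝ) (x : Tn n k) (i : Fin k → Fin n) :
    ∑ j, (∑ l, (∏ m ∈ univ.erase l, (1 : Matrix (Fin n) (Fin n) ℝ) (i m) (j m))
      * M (i l) (j l)) * x j = der M x i := by
  rw [der_eq, apply_sum]
  simp only [Finset.sum_mul]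
  rw [Finset.sum_comm]
  refine Finset.sum_congr rfl fun l _ => ?_
  rw [sl_apply]
  simp only [prod_erase, Finset.sum_mul, ite_mul, one_mul, zero_mul]
  rw [Finset.sum_comm]
  refine Finset.sum_congr rfl fun b _ => ?_
  simp

theorem hasDerivAt_entry (T : EuclideanSpace ℝ (Fin n) →L[ℝ] EuclideanSpace ℝ (Fin n))
    (a b : Fin n) :
    HasDerivAt (fun t : ℝ => toMat (NormedSpace.exp (t • T)) a b) (toMat T a b) 0 := by
  have h1 := hasDerivAt_entL_exp 1 T 1 0
  simp only [one_mul, mul_one] at h1
  rw [exp_zero_smul', mul_one] at h1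
  exact (hasDerivAt_pi.mp h1) (a, b)

theorem hasDerivAt_act (T : EuclideanSpace ℝ (Fin n) →L[ℝ] EuclideanSpace ℝ (Fin n))
    (x : Tn n k) (i : Fin k → Fin n) :
    HasDerivAt (fun t : ℝ => act (toMat (NormedSpace.exp (t • T))) x i) (der (toMat T) x i) 0 := by
  rw [← sum_erase]
  simp only [act_apply]
  refine HasDerivAt.fun_sum fun j _ => ?_
  refine HasDerivAt.mul_const ?_ _
  have h := HasDerivAt.fun_finsetProd (u := (univ : Finset (Fin k))) (x := (0 : ℝ))
    (f := fun l t => toMat (NormedSpace.exp (t • T)) (i l) (j l))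
    (f' := fun l => toMat T (i l) (j l)) (fun l _ => hasDerivAt_entry T (i l) (j l))
  simpa only [exp_zero_smul', toMat_one, smul_eq_mul] using h

/-- The derivative of the representation. -/
theorem dR_rep (W : Submodule ℝ (Tn n k)) (hW : RotInv W)
    (R : (Fin n × Fin n → ℝ) → (W →L[ℝ] W)) (hR : Differentiable ℝ R)
    (hRρ : ∀ g : Matrix.specialOrthogonalGroup (Fin n) ℝ,
      R (vec (g : Matrix (Fin n) (Fin n) ℝ)) = op (rep W hW) g)
    (T : EuclideanSpace ℝ (Fin n) →L[ℝ] EuclideanSpace ℝ (Fin n)) (hT : Skew T) (w : W) :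
    ((dR R T w : W) : Tn n k) = der (toMat T) (w : Tn n k) := by
  ext i
  have h0 := hasDerivAt_R_zero (rep W hW) R hR hRρ T
  have h1 := h0.clm_apply (hasDerivAt_const (0 : ℝ) w)
  have h2 := (W.subtypeL.hasFDerivAt.comp_hasDerivAt (0 : ℝ) h1)
  have h3 := ((EuclideanSpace.proj i : Tn n k →L[ℝ] ℝ).hasFDerivAt.comp_hasDerivAt (0 : ℝ) h2)
  have h4 : HasDerivAt (fun t : ℝ => act (toMat (NormedSpace.exp (t • T))) (w : Tn n k) i)
      (((dR R T w : W) : Tn n k) i) 0 := by
    convert! h3 using 1
    · ext t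
      simp only [Function.comp_apply]
      rw [R_exp (rep W hW) R hRρ _ (hT.smul t), op_apply]
      rfl
    · simp
  exact h4.unique (hasDerivAt_act T (w : Tn n k) i)

end Pool.Agent.X160.Ten
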