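import Pool.Agent.X160.Ten.Slot

set_option autoImplicit false

/-!
# The Casimir operator on tensors
-/

namespace Pool.Agent.X160.Ten

open scoped InnerProductSpace
open Finset

variable {n k : ℕ}

/-- The infinitesimal rotation of the coordinate plane `a, b`. -/
def AM (a b : Fin n) : Matrix (Fin n) (Fin n) ℝ :=
  Matrix.of fun c d => (if a = c then (if b = d then 1 else 0) else 0)
    - (if b = c then (if a = d then 1 else 0) else 0)

theorem AM_apply (a b c d : Fin n) : AM a b c d
    = (if a = c then (if b = d then 1 else 0) else 0)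
    - (if b = c then (if a = d then 1 else 0) else 0) := rfl

theorem AM_sum (p c r d : Fin n) : ∑ a : Fin n, ∑ b : Fin n, AM a b p c * AM a b r d
    = 2 * ((if p = r then (if c = d then 1 else 0) else 0)
      - (if p = d then (if c = r then 1 else 0) else 0)) := by
  have h : ∀ a b : Fin n, AM a b p c * AM a b r d
      = (if a = p then (if b = c then (if p = r then (if c = d then (1 : ℝ) else 0) else 0)
          else 0) else 0)
        - (if a = p then (if b = c then (if c = r then (if p = d then (1 : ℝ) else 0) else 0)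
          else 0) else 0)
        - (if a = c then (if b = p then (if c = r then (if p = d then (1 : ℝ) else 0) else 0)
          else 0) else 0)
        + (if a = c then (if b = p then (if p = r then (if c = d then (1 : ℝ) else 0) else 0)
          else 0) else 0) := by
    intro a b
    rw [AM_apply, AM_apply]
    by_cases h1 : a = p <;> by_cases h2 : b = c <;> by_cases h3 : b = p <;> by_cases h4 : a = c <;>
      by_cases h5 : a = r <;> by_cases h6 : b = d <;> by_cases h7 : b = r <;> by_cases h8 : a = d <;>
      simp_all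
  simp only [h, Finset.sum_add_distrib, Finset.sum_sub_distrib]
  have e : ∀ q : ℝ, ∀ c' p' : Fin n, ∑ a : Fin n, ∑ b : Fin n,
      (if a = c' then (if b = p' then q else 0) else 0) = q := by
    intro q c' p'
    rw [Finset.sum_comm]
    simp
  simp only [e]
  split_ifs <;> norm_num

theorem sum3 (f : Fin n → Fin n → Fin n → ℝ) :
    ∑ a, ∑ b, ∑ c, f a b c = ∑ c, ∑ a, ∑ b, f a b c := by
  have h : ∀ a, ∑ b, ∑ c, f a b c = ∑ c, ∑ b, f a b c := fun a => Finset.sum_comm
  rw [Finset.sum_congr rfl fun a _ => h a]
  exact Finset.sum_comm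

theorem sum4 (f : Fin n → Fin n → Fin n → Fin n → ℝ) :
    ∑ a, ∑ b, ∑ c, ∑ d, f a b c d = ∑ c, ∑ d, ∑ a, ∑ b, f a b c d := by
  rw [sum3 fun a b c => ∑ d, f a b c d]
  exact Finset.sum_congr rfl fun c _ => sum3 fun a b d => f a b c d

theorem AM_mul_sum : ∑ a : Fin n, ∑ b : Fin n, AM a b * AM a b
    = (-(2 * ((n : ℝ) - 1))) • (1 : Matrix (Fin n) (Fin n) ℝ) := by
  ext p d
  simp only [Matrix.sum_apply, Matrix.mul_apply, Matrix.smul_apply, smul_eq_mul, Matrix.one_apply]
  rw [sum3]
  simp only [AM_sum]
  have h2 : ∀ c : Fin n, 2 * ((if p = c then (if c = d then (1 : ℝ) else 0) else 0)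
      - (if p = d then (if True then 1 else 0) else 0))
      = 2 * (if p = c then (if c = d then (1 : ℝ) else 0) else 0)
        - 2 * (if p = d then 1 else 0) := by
    intro c
    simp only [if_true]
    ring
  rw [Finset.sum_congr rfl fun c _ => h2 c, Finset.sum_sub_distrib, ← Finset.mul_sum,
    Finset.sum_ite_eq, if_pos (Finset.mem_univ _), Finset.sum_const, Finset.card_univ,
    Fintype.card_fin, nsmul_eq_mul]
  split_ifs <;> ring

theorem apply_sum {ι : Type*} (s : Finset ι) (f : ι → Tn n k) (i : Fin k → Fin n) :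
    (∑ j ∈ s, f j) i = ∑ j ∈ s, f j i := by
  rw [WithLp.ofLp_sum, Finset.sum_apply]

theorem sl_diag (l : Fin k) (x : Tn n k) :
    ∑ a : Fin n, ∑ b : Fin n, sl l (AM a b) (sl l (AM a b) x) = (-(2 * ((n : ℝ) - 1))) • x := by
  simp only [sl_sl, ← sl_sum]
  rw [AM_mul_sum, sl_smul, sl_one]

theorem update_eq_swap {l m : Fin k} (i : Fin k → Fin n) :
    Function.update (Function.update i l (i m)) m (i l) = i ∘ Equiv.swap l m := by
  ext j
  congr 1
  rcases eq_or_ne j m with h | h
  · subst h
    simp
  · rcases eq_or_ne j l with h' | h'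
    · subst h'
      simp [h]
    · simp [Equiv.swap_apply_of_ne_of_ne h' h, h, h']

theorem sl_off {l m : Fin k} (hlm : l ≠ m) (x : Tn n k) (i : Fin k → Fin n) :
    (∑ a : Fin n, ∑ b : Fin n, sl l (AM a b) (sl m (AM a b) x)) i
      = 2 * ((if i l = i m then ∑ b, x (Function.update (Function.update i l b) m b) else 0)
        - x (i ∘ Equiv.swap l m)) := by
  simp only [apply_sum, sl_sl_apply hlm]
  have h : ∑ a : Fin n, ∑ b : Fin n, ∑ c : Fin n, ∑ d : Fin n, AM a b (i l) c * AM a b (i m) d
        * x (Function.update (Function.update i l c) m d)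
      = ∑ c : Fin n, ∑ d : Fin n, (∑ a : Fin n, ∑ b : Fin n, AM a b (i l) c * AM a b (i m) d)
        * x (Function.update (Function.update i l c) m d) := by
    simp only [Finset.sum_mul]
    exact sum4 _
  rw [h]
  simp only [AM_sum]
  have h2 : ∀ c d : Fin n, 2 * ((if i l = i m then (if c = d then (1 : ℝ) else 0) else 0)
      - (if i l = d then (if c = i m then 1 else 0) else 0))
        * x (Function.update (Function.update i l c) m d)
      = 2 * (if i l = i m then (if c = d then
          x (Function.update (Function.update i l c) m d) else 0) else 0)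
        - 2 * (if i l = d then (if c = i m then
          x (Function.update (Function.update i l c) m d) else 0) else 0) := by
    intro c d
    split_ifs <;> ring
  simp only [h2, Finset.sum_sub_distrib, ← Finset.mul_sum]
  rw [← update_eq_swap (l := l) (m := m) i, mul_sub]
  congr 2
  · split_ifs
    · simp
    · simp
  · simp

theorem casimir_apply (x : Tn n k) (i : Fin k → Fin n) :
    (∑ a : Fin n, ∑ b : Fin n, der (AM a b) (der (AM a b) x)) i
      = -(2 * ((n : ℝ) - 1)) * k * x i + ∑ l : Fin k, ∑ m ∈ univ.filter (fun m => m ≠ l),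
        2 * ((if i l = i m then ∑ b, x (Function.update (Function.update i l b) m b) else 0)
        - x (i ∘ Equiv.swap l m)) := by
  have h1 : ∑ a : Fin n, ∑ b : Fin n, der (AM a b) (der (AM a b) x)
      = ∑ l : Fin k, ∑ m : Fin k, ∑ a : Fin n, ∑ b : Fin n, sl l (AM a b) (sl m (AM a b) x) := by
    simp only [der_eq, map_sum]
    have h : ∀ a : Fin n, ∑ b : Fin n, ∑ m : Fin k, ∑ l : Fin k, sl l (AM a b) (sl m (AM a b) x)
        = ∑ l : Fin k, ∑ m : Fin k, ∑ b : Fin n, sl l (AM a b) (sl m (AM a b) x) := by
      intro a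
      rw [Finset.sum_congr rfl fun b _ => Finset.sum_comm (f := fun (m l : Fin k) =>
        sl l (AM a b) (sl m (AM a b) x)), Finset.sum_comm]
      refine Finset.sum_congr rfl fun l _ => ?_
      rw [Finset.sum_comm]
    rw [Finset.sum_congr rfl fun a _ => h a, Finset.sum_comm]
    refine Finset.sum_congr rfl fun l _ => ?_
    rw [Finset.sum_comm]
  rw [h1, apply_sum]
  have h2 : ∀ l : Fin k, (∑ m : Fin k, ∑ a : Fin n, ∑ b : Fin n,
      sl l (AM a b) (sl m (AM a b) x)) i
      = -(2 * ((n : ℝ) - 1)) * x i + ∑ m ∈ univ.filter (fun m => m ≠ l),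
        2 * ((if i l = i m then ∑ b, x (Function.update (Function.update i l b) m b) else 0)
        - x (i ∘ Equiv.swap l m)) := by
    intro l
    rw [← Finset.add_sum_erase _ _ (Finset.mem_univ l), sl_diag, PiLp.add_apply,
      PiLp.smul_apply, smul_eq_mul, apply_sum]
    congr 1
    have h3 : univ.erase l = univ.filter (fun m => m ≠ l) := by
      ext m
      simp
    rw [h3]
    refine Finset.sum_congr rfl fun m hm => ?_
    have hm' : l ≠ m := by
      rw [Finset.mem_filter] at hm
      exact hm.2.symm
    exact sl_off hm' x i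
  rw [Finset.sum_congr rfl fun l _ => h2 l, Finset.sum_add_distrib, Finset.sum_const,
    Finset.card_univ, Fintype.card_fin, nsmul_eq_mul]
  ring

/-- All contractions of the tensor `x` are zero. -/
def Traceless (x : Tn n k) : Prop :=
  ∀ l m : Fin k, l ≠ m → ∀ i : Fin k → Fin n,
    ∑ b, x (Function.update (Function.update i l b) m b) = 0

/-- The sum of the tensors obtained from `x` by the `k (k - 1)` transpositions of two different
slots (every unordered pair counted twice) is `s x`. -/
def SwapSum (s : ℝ) (x : Tn n k) : Prop :=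
  ∀ i : Fin k → Fin n, ∑ l : Fin k, ∑ m ∈ univ.filter (fun m => m ≠ l),
    x (i ∘ Equiv.swap l m) = s * x i

theorem casimir_eq (x : Tn n k) (h1 : Traceless x) (s : ℝ) (h2 : SwapSum s x) :
    -∑ p : Fin n × Fin n, der (AM p.1 p.2) (der (AM p.1 p.2) x)
      = (2 * (k * ((n : ℝ) - 1) + s)) • x := by
  ext i
  rw [Fintype.sum_prod_type, PiLp.neg_apply, casimir_apply, PiLp.smul_apply, smul_eq_mul]
  have h3 : ∑ l : Fin k, ∑ m ∈ univ.filter (fun m => m ≠ l),
        2 * ((if i l = i m then ∑ b, x (Function.update (Function.update i l b) m b) else 0)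
        - x (i ∘ Equiv.swap l m)) = -(2 * (s * x i)) := by
    rw [← h2 i, Finset.mul_sum, ← Finset.sum_neg_distrib]
    refine Finset.sum_congr rfl fun l _ => ?_
    rw [Finset.mul_sum, ← Finset.sum_neg_distrib]
    refine Finset.sum_congr rfl fun m hm => ?_
    have hm' : l ≠ m := by
      rw [Finset.mem_filter] at hm
      exact hm.2.symm
    rw [h1 l m hm' i, ite_self]
    ring
  rw [h3]
  ring

theorem alt_traceless {x : Tn n k} (hx : x ∈ Alt n k) : Traceless x := by
  intro l m hlm i
  refine Finset.sum_eq_zero fun b _ => ?_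
  have h := hx l m hlm (Function.update (Function.update i l b) m b)
  rw [update_swap hlm] at h
  linarith

theorem alt_swapSum {x : Tn n k} (hx : x ∈ Alt n k) : SwapSum (-(k * ((k : ℝ) - 1))) x := by
  intro i
  have h : ∀ l : Fin k, ∑ m ∈ univ.filter (fun m => m ≠ l), x (i ∘ Equiv.swap l m)
      = -((k : ℝ) - 1) * x i := by
    intro l
    have h1 : ∀ m ∈ univ.filter (fun m => m ≠ l), x (i ∘ Equiv.swap l m) = -x i := by
      intro m hm
      rw [Finset.mem_filter] at hm
      exact hx l m hm.2.symm i
    rw [Finset.sum_congr rfl h1, Finset.sum_const, Finset.filter_ne',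
      Finset.card_erase_of_mem (Finset.mem_univ l), Finset.card_univ, Fintype.card_fin,
      nsmul_eq_mul, Nat.cast_sub (by have := l.2; omega)]
    push_cast
    ring
  rw [Finset.sum_congr rfl fun l _ => h l, Finset.sum_const, Finset.card_univ, Fintype.card_fin,
    nsmul_eq_mul]
  ring

end Pool.Agent.X160.Ten
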