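import Pool.Agent.X160.Ten.Slot

set_option autoImplicit false

/-!
# The dimension of the space of alternating tensors
-/

namespace Pool.Agent.X160.Ten

open Finset

variable {n k : ℕ}

theorem alt_perm {x : Tn n k} (hx : x ∈ Alt n k) (σ : Equiv.Perm (Fin k)) :
    ∀ i : Fin k → Fin n, x (i ∘ σ) = ((Equiv.Perm.sign σ : ℤ) : ℝ) * x i := by
  refine Equiv.Perm.swap_induction_on σ ?_ ?_
  · intro i
    simp
  · intro f l m hlm ih i
    have h1 : i ∘ ⇑(Equiv.swap l m * f) = (i ∘ Equiv.swap l m) ∘ f := by
      ext j
      simp [Equiv.Perm.mul_apply]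
    rw [h1, ih, hx l m hlm, Equiv.Perm.sign_mul, Equiv.Perm.sign_swap hlm]
    push_cast
    ring

theorem alt_inj {x : Tn n k} (hx : x ∈ Alt n k) (i : Fin k → Fin n)
    (hi : ¬ Function.Injective i) : x i = 0 := by
  simp only [Function.Injective, not_forall] at hi
  obtain ⟨l, m, h1, h2⟩ := hi
  have h3 : i ∘ Equiv.swap l m = i := by
    ext j
    congr 1
    rcases eq_or_ne j l with h | h
    · subst h
      simp [h1]
    · rcases eq_or_ne j m with h' | h'
      · subst h'
        simp [h1]
      · simp [Equiv.swap_apply_of_ne_of_ne h h']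
  have h4 := hx l m h2 i
  rw [h3] at h4
  linarith

/-- The subsets with `k` elements. -/
abbrev Sub (n k : ℕ) := {s : Finset (Fin n) // s.card = k}

/-- The increasing enumeration of a subset. -/
noncomputable def en (s : Sub n k) : Fin k → Fin n := fun l => s.1.orderEmbOfFin s.2 l

theorem en_inj (s : Sub n k) : Function.Injective (en s) :=
  (s.1.orderEmbOfFin s.2).injective

theorem en_mem (s : Sub n k) (l : Fin k) : en s l ∈ s.1 :=
  Finset.orderEmbOfFin_mem _ _ _

theorem exists_perm (i : Fin k → Fin n) (hi : Function.Injective i) :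
    ∃ (s : Sub n k) (σ : Equiv.Perm (Fin k)), i = en s ∘ σ := by
  let s : Sub n k := ⟨univ.image i, by
    rw [Finset.card_image_of_injective _ hi, Finset.card_univ, Fintype.card_fin]⟩
  have hmem : ∀ l, i l ∈ s.1 := fun l => Finset.mem_image_of_mem _ (Finset.mem_univ l)
  let f : Fin k → Fin k := fun l => (s.1.orderIsoOfFin s.2).symm ⟨i l, hmem l⟩
  have hf : Function.Injective f := by
    intro a b hab
    have h1 := (s.1.orderIsoOfFin s.2).symm.injective hab
    exact hi (congrArg Subtype.val h1)
  refine ⟨s, Equiv.ofBijective f (Finite.injective_iff_bijective.mp hf), ?_⟩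
  ext l
  congr 1
  show i l = en s (f l)
  simp only [en, f]
  rw [← Finset.coe_orderIsoOfFin_apply]
  simp

/-- The restriction of an alternating tensor to increasing indices. -/
noncomputable def restr (n k : ℕ) : Alt n k →ₗ[ℝ] (Sub n k → ℝ) where
  toFun x := fun s => (x : Tn n k) (en s)
  map_add' x y := by
    ext s
    simp
  map_smul' c x := by
    ext s
    simp

theorem restr_inj : Function.Injective (restr n k) := by
  rw [← LinearMap.ker_eq_bot, LinearMap.ker_eq_bot']
  intro x hx
  apply Subtype.ext
  ext i
  by_cases hi : Function.Injective i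
  · obtain ⟨s, σ, rfl⟩ := exists_perm i hi
    rw [alt_perm x.2]
    have h1 : (x : Tn n k) (en s) = 0 := congrFun hx s
    rw [h1]
    simp
  · rw [alt_inj x.2 i hi]
    simp

/-- The elementary alternating tensor. -/
noncomputable def elt (s : Sub n k) : Tn n k :=
  WithLp.toLp 2 fun i => Matrix.det (Matrix.of fun l m : Fin k => if i l = en s m then (1 : ℝ) else 0)

theorem elt_mem (s : Sub n k) : elt s ∈ Alt n k := by
  intro l m hlm i
  show Matrix.det (Matrix.of fun a b : Fin k =>
      if (i ∘ Equiv.swap l m) a = en s b then (1 : ℝ) else 0)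
    = -Matrix.det (Matrix.of fun a b : Fin k => if i a = en s b then (1 : ℝ) else 0)
  have h := Matrix.det_permute (Equiv.swap l m)
    (Matrix.of fun a b : Fin k => if i a = en s b then (1 : ℝ) else 0)
  rw [Equiv.Perm.sign_swap hlm] at h
  simpa [Matrix.submatrix] using h

theorem elt_en (s t : Sub n k) : elt s (en t) = if s = t then 1 else 0 := by
  show Matrix.det (Matrix.of fun a b : Fin k => if en t a = en s b then (1 : ℝ) else 0) = _
  split_ifs with h
  · subst h
    have h1 : (Matrix.of fun a b : Fin k => if en s a = en s b then (1 : ℝ) else 0) = 1 := by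
      ext a b
      simp [Matrix.one_apply, (en_inj s).eq_iff]
    rw [h1, Matrix.det_one]
  · have h1 : ∃ l : Fin k, en t l ∉ s.1 := by
      by_contra hcon
      push Not at hcon
      apply h
      apply Subtype.ext
      symm
      refine Finset.eq_of_subset_of_card_le ?_ (by rw [s.2, t.2])
      intro a ha
      have h2 : a ∈ Set.range (t.1.orderEmbOfFin t.2) := by
        rw [Finset.range_orderEmbOfFin]
        exact ha
      obtain ⟨l, rfl⟩ := h2
      exact hcon l
    obtain ⟨l, hl⟩ := h1
    refine Matrix.det_eq_zero_of_row_eq_zero l fun b => ?_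
    rw [Matrix.of_apply, if_neg]
    intro h2
    apply hl
    rw [h2]
    exact en_mem s b

theorem restr_surj : Function.Surjective (restr n k) := by
  intro f
  refine ⟨∑ s, f s • ⟨elt s, elt_mem s⟩, ?_⟩
  rw [map_sum]
  ext t
  rw [Finset.sum_apply]
  simp only [map_smul, Pi.smul_apply, smul_eq_mul]
  have h : ∀ s, restr n k ⟨elt s, elt_mem s⟩ t = if s = t then 1 else 0 := fun s => elt_en s t
  simp [h]

theorem finrank_alt : Module.finrank ℝ (Alt n k) = n.choose k := by
  rw [(LinearEquiv.ofBijective (restr n k) ⟨restr_inj, restr_surj⟩).finrank_eq,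
    Module.finrank_fintype_fun_eq_card, Fintype.card_finset_len, Fintype.card_fin]

end Pool.Agent.X160.Ten
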