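import Pool.Agent.X160.Ten.Act
import Pool.Agent.X160.Ten.Dim

set_option autoImplicit false

/-!
# Covering rotation invariant bodies of tensors
-/

namespace Pool.Agent.X160.Ten

open scoped InnerProductSpace
open Finset
open Pool.Agent.TH591.Lie

variable {n k : ℕ}

theorem toMat_XI (p : Fin n × Fin n) : toMat (XI n p) = AM p.1 p.2 := by
  ext c d
  rw [toMat_apply, XI, xi_apply, AM_apply]
  simp only [PiLp.sub_apply, PiLp.smul_apply, smul_eq_mul, bv_apply]
  have h : ∀ e : Fin n, (EuclideanSpace.single d (1 : ℝ)) e = if e = d then 1 else 0 := by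
    intro e
    simp
  rw [h, h]
  split_ifs <;> simp_all

theorem der_add (M N : Matrix (Fin n) (Fin n) ℝ) (x : Tn n k) :
    der (M + N) x = der M x + der N x := by
  simp only [der_eq, sl_add, Finset.sum_add_distrib]

theorem der_smul (c : ℝ) (M : Matrix (Fin n) (Fin n) ℝ) (x : Tn n k) :
    der (c • M) x = c • der M x := by
  simp only [der_eq, sl_smul, Finset.smul_sum]

theorem der_sum {ι : Type*} (t : Finset ι) (M : ι → Matrix (Fin n) (Fin n) ℝ) (x : Tn n k) :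
    der (∑ j ∈ t, M j) x = ∑ j ∈ t, der (M j) x := by
  simp only [der_eq, sl_sum]
  rw [Finset.sum_comm]

theorem comb_entry (b : Fin n × Fin n → ℝ) (c d : Fin n) :
    (∑ p : Fin n × Fin n, b p • AM p.1 p.2) c d = b (c, d) - b (d, c) := by
  rw [Matrix.sum_apply, Fintype.sum_prod_type]
  simp only [Matrix.smul_apply, smul_eq_mul, AM_apply, mul_sub, mul_ite, mul_one, mul_zero,
    Finset.sum_sub_distrib]
  simp

theorem comb_sq (b : Fin n × Fin n → ℝ) (hb : ∑ p, b p ^ 2 ≤ 1) :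
    ∑ c, ∑ d, (∑ p : Fin n × Fin n, b p • AM p.1 p.2) c d ^ 2 ≤ 4 := by
  simp only [comb_entry]
  have h1 : ∑ c : Fin n, ∑ d : Fin n, (b (c, d) - b (d, c)) ^ 2
      ≤ ∑ c : Fin n, ∑ d : Fin n, (2 * b (c, d) ^ 2 + 2 * b (d, c) ^ 2) := by
    refine Finset.sum_le_sum fun c _ => Finset.sum_le_sum fun d _ => ?_
    nlinarith [sq_nonneg (b (c, d) + b (d, c))]
  refine h1.trans ?_
  simp only [Finset.sum_add_distrib, ← Finset.mul_sum]
  rw [Finset.sum_comm (f := fun c d => b (d, c) ^ 2)]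
  rw [Fintype.sum_prod_type] at hb
  linarith

theorem swap_lower {x : Tn n k} {s : ℝ} (hx : x ≠ 0) (h : SwapSum s x) :
    -(k * ((k : ℝ) - 1)) ≤ s := by
  have hpos : 0 < ∑ i, x i ^ 2 := by
    have h1 : 0 < ‖x‖ ^ 2 := by
      have := norm_pos_iff.mpr hx
      positivity
    rwa [EuclideanSpace.real_norm_sq_eq] at h1
  have h1 : s * ∑ i, x i ^ 2 = ∑ l : Fin k, ∑ m ∈ univ.filter (fun m => m ≠ l),
      ∑ i, x i * x (i ∘ Equiv.swap l m) := by
    have h2 : s * ∑ i, x i ^ 2 = ∑ i, x i * (∑ l : Fin k, ∑ m ∈ univ.filter (fun m => m ≠ l),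
        x (i ∘ Equiv.swap l m)) := by
      rw [Finset.mul_sum]
      refine Finset.sum_congr rfl fun i _ => ?_
      rw [h i]
      ring
    rw [h2]
    simp only [Finset.mul_sum]
    rw [Finset.sum_comm]
    refine Finset.sum_congr rfl fun l _ => ?_
    rw [Finset.sum_comm]
  have h3 : ∀ l m : Fin k, -∑ i, x i ^ 2 ≤ ∑ i, x i * x (i ∘ Equiv.swap l m) := by
    intro l m
    have h4 : ∑ i : Fin k → Fin n, x (i ∘ Equiv.swap l m) ^ 2 = ∑ i, x i ^ 2 :=
      Equiv.sum_comp (Equiv.arrowCongr (Equiv.swap l m) (Equiv.refl (Fin n)))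
        (fun i => x i ^ 2)
    have h5 : 0 ≤ ∑ i, (x i + x (i ∘ Equiv.swap l m)) ^ 2 :=
      Finset.sum_nonneg fun i _ => sq_nonneg _
    have h6 : ∑ i, (x i + x (i ∘ Equiv.swap l m)) ^ 2
        = ∑ i, x i ^ 2 + 2 * ∑ i, x i * x (i ∘ Equiv.swap l m)
          + ∑ i : Fin k → Fin n, x (i ∘ Equiv.swap l m) ^ 2 := by
      rw [Finset.mul_sum, ← Finset.sum_add_distrib, ← Finset.sum_add_distrib]
      refine Finset.sum_congr rfl fun i _ => ?_
      ring
    rw [h6, h4] at h5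
    linarith
  have h7 : -(k * ((k : ℝ) - 1)) * ∑ i, x i ^ 2 ≤ s * ∑ i, x i ^ 2 := by
    rw [h1]
    have h8 : ∀ l ∈ (univ : Finset (Fin k)), -((k : ℝ) - 1) * ∑ i, x i ^ 2
        ≤ ∑ m ∈ univ.filter (fun m => m ≠ l), ∑ i, x i * x (i ∘ Equiv.swap l m) := by
      intro l _
      have h9 := Finset.sum_le_sum (s := univ.filter (fun m => m ≠ l)) fun m _ => h3 l m
      rw [Finset.sum_const, Finset.filter_ne', Finset.card_erase_of_mem (Finset.mem_univ l),
        Finset.card_univ, Fintype.card_fin, nsmul_eq_mul,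
        Nat.cast_sub (by have := l.2; omega)] at h9
      rw [Finset.filter_ne']
      refine le_trans (le_of_eq ?_) h9
      push_cast
      ring
    have h10 := Finset.sum_le_sum h8
    rw [Finset.sum_const, Finset.card_univ, Fintype.card_fin, nsmul_eq_mul] at h10
    refine le_trans (le_of_eq ?_) h10
    ring
  exact le_of_mul_le_mul_right h7 hpos

/-- **Rotation invariant bodies of tensors of one type.** -/
theorem cover_type {r : ℕ} (hk : 1 ≤ k) (hr : 1 ≤ r) (hkn : k < n) (W : Submodule ℝ (Tn n k))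
    (hW : RotInv W) (s : ℝ) (htr : ∀ x ∈ W, Traceless x) (hsw : ∀ x ∈ W, SwapSum s x)
    (col : Fin k → Fin r) (hcol : ∀ x ∈ W, ColSkew col x) (K : Set W)
    (hd : 2 ≤ Module.finrank ℝ W) (hK : Convex ℝ K) (hKc : IsCompact K)
    (hKi : (interior K).Nonempty) (a : ℝ) (ha : 0 < a) (hKa : ∀ x ∈ K, -(a⁻¹ • x) ∈ K)
    (hinv : ∀ U : Matrix.specialOrthogonalGroup (Fin n) ℝ, ∀ x ∈ K, ∀ y : W,
      (y : Tn n k) = act (U : Matrix (Fin n) (Fin n) ℝ) (x : Tn n k) → y ∈ K) :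
    ∃ T : Finset W, K ⊆ ⋃ t ∈ T, (fun x => t + x) '' interior K ∧
      (T.card : ℝ) ≤ 1 + 13 * Module.finrank ℝ W * Real.log (2 * Module.finrank ℝ W ^ 2
        + 2 * Module.finrank ℝ W + 1) * 2 ^ Module.finrank ℝ W
        * Real.exp (-(((n : ℝ) - k) / (960 * r * (1 + a) ^ 2))) := by
  let _ : MeasurableSpace W := borel W
  have _ : BorelSpace W := ⟨rfl⟩
  obtain ⟨R, hR, hRρ⟩ := exists_extension (rep W hW) k (polyRep_rep W hW)
  have hk' : (1 : ℝ) ≤ k := by exact_mod_cast hk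
  have hr' : (1 : ℝ) ≤ r := by exact_mod_cast hr
  have hkn' : (k : ℝ) + 1 ≤ n := by exact_mod_cast hkn
  -- the operators
  have hcoe : ∀ (p : Fin n × Fin n) (w : W),
      ((dR R (XI n p) w : W) : Tn n k) = der (AM p.1 p.2) (w : Tn n k) := by
    intro p w
    rw [dR_rep W hW R hR hRρ _ (XI_skew p) w, toMat_XI]
  -- the lower bound for `s`
  have hs : -(k * ((k : ℝ) - 1)) ≤ s := by
    have hnt : Nontrivial W := by
      apply Module.nontrivial_of_finrank_pos (R := ℝ)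
      omega
    obtain ⟨w, hw⟩ := exists_ne (0 : W)
    refine swap_lower (x := (w : Tn n k)) ?_ (hsw w w.2)
    intro h
    exact hw (Subtype.ext h)
  set q : ℝ := 2 * (k * ((n : ℝ) - 1) + s) with hq
  have hqge : 2 * (k * ((n : ℝ) - k)) ≤ q := by
    rw [hq]
    nlinarith
  have hq0 : 0 < q := by
    have : 0 < 2 * (k * ((n : ℝ) - k)) := by
      have : 0 < (n : ℝ) - k := by linarith
      positivity
    linarith
  have a1 : ∀ p, Skew (dR R (XI n p)) := fun p => dR_skew (rep W hW) R hR hRρ _ (XI_skew p)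
  have a2 : ∀ w : W, -∑ p, dR R (XI n p) (dR R (XI n p) w) = q • w := by
    intro w
    apply Subtype.ext
    have h1 := casimir_eq (w : Tn n k) (htr w w.2) s (hsw w w.2)
    rw [Submodule.coe_neg, Submodule.coe_sum, Submodule.coe_smul, hq, ← h1]
    simp only [hcoe]
  have hrk : (0 : ℝ) < r * k := by positivity
  have a8 : (0 : ℝ) < 2 * √(r * k : ℝ) := by positivity
  have a5 : ∀ b : Fin n × Fin n → ℝ, ∑ p, b p ^ 2 ≤ 1 → ∀ w : W,
      ‖∑ p, b p • dR R (XI n p) w‖ ≤ 2 * √(r * k : ℝ) * ‖w‖ := by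
    intro b hb w
    rw [← Submodule.norm_coe, ← Submodule.norm_coe, Submodule.coe_sum]
    have h1 : ∑ p, ((b p • dR R (XI n p) w : W) : Tn n k)
        = der (∑ p : Fin n × Fin n, b p • AM p.1 p.2) (w : Tn n k) := by
      rw [der_sum]
      refine Finset.sum_congr rfl fun p _ => ?_
      rw [der_smul, Submodule.coe_smul, hcoe]
    rw [h1]
    have h2 := der_norm col (hcol w w.2) (∑ p : Fin n × Fin n, b p • AM p.1 p.2)
    have h3 := comb_sq b hb
    have h4 : ‖der (∑ p : Fin n × Fin n, b p • AM p.1 p.2) (w : Tn n k)‖ ^ 2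
        ≤ (2 * √(r * k : ℝ) * ‖(w : Tn n k)‖) ^ 2 := by
      rw [mul_pow, mul_pow, Real.sq_sqrt hrk.le]
      calc _ ≤ r * k * (∑ c, ∑ d, (∑ p : Fin n × Fin n, b p • AM p.1 p.2) c d ^ 2)
            * ‖(w : Tn n k)‖ ^ 2 := h2
        _ ≤ r * k * 4 * ‖(w : Tn n k)‖ ^ 2 := by gcongr
        _ = 2 ^ 2 * (r * k) * ‖(w : Tn n k)‖ ^ 2 := by ring
    exact (sq_le_sq₀ (norm_nonneg _) (by positivity)).mp h4
  have a6 := X_inv (rep W hW) R hR hRρ K (fun g x hx => hinv g x hx _ (rep_apply W hW g x))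
  generalize hXdef : (fun p => dR R (XI n p)) = X at a6
  have hXp : ∀ p, dR R (XI n p) = X p := fun p => congrFun hXdef p
  simp only [hXp] at a1 a2 a5
  clear hcoe hXp hXdef
  obtain ⟨T, hT1, hT2⟩ := Pool.Agent.Y368.Lie.cover_scalar' X a1 q hq0 a2 (2 * √(r * k : ℝ)) a8 a5
    K hd hK hKc hKi a ha hKa a6
  refine ⟨T, hT1, hT2.trans ?_⟩
  have hexp : Real.exp (-(q / (480 * (2 * √(r * k : ℝ)) ^ 2 * (1 + a) ^ 2)))
      ≤ Real.exp (-(((n : ℝ) - k) / (960 * r * (1 + a) ^ 2))) := by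
    apply Real.exp_le_exp.mpr
    apply neg_le_neg
    rw [mul_pow, Real.sq_sqrt hrk.le, div_le_div_iff₀ (by positivity) (by positivity)]
    have h5 : ((n : ℝ) - k) * (480 * (2 ^ 2 * (r * k)) * (1 + a) ^ 2)
        = 2 * (k * ((n : ℝ) - k)) * (960 * r * (1 + a) ^ 2) := by ring
    rw [h5]
    exact mul_le_mul_of_nonneg_right hqge (by positivity)
  have hlog : 0 ≤ Real.log (2 * (Module.finrank ℝ W : ℝ) ^ 2
      + 2 * Module.finrank ℝ W + 1) := by
    apply Real.log_nonneg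
    have : (0 : ℝ) ≤ Module.finrank ℝ W := Nat.cast_nonneg _
    nlinarith
  gcongr

end Pool.Agent.X160.Ten
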