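import Mathlib

set_option autoImplicit false

/-!
# Slot operators on tensors
-/

namespace Pool.Agent.X160.Ten

open scoped InnerProductSpace
open Finset

variable {n k : ℕ}

/-- Tensors of degree `k` over `ℝ^n`, as arrays of numbers. -/
abbrev Tn (n k : ℕ) := EuclideanSpace ℝ (Fin k → Fin n)

/-- The matrix `M` acting on the slot `l`. -/
noncomputable def sl (l : Fin k) (M : Matrix (Fin n) (Fin n) ℝ) : Tn n k →ₗ[ℝ] Tn n k where
  toFun x := WithLp.toLp 2 fun i => ∑ b, M (i l) b * x (Function.update i l b)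
  map_add' x y := by
    ext i
    simp [mul_add, Finset.sum_add_distrib]
  map_smul' c x := by
    ext i
    simp only [PiLp.smul_apply, smul_eq_mul, RingHom.id_apply, Finset.mul_sum]
    refine Finset.sum_congr rfl fun b _ => ?_
    ring

theorem sl_apply (l : Fin k) (M : Matrix (Fin n) (Fin n) ℝ) (x : Tn n k) (i : Fin k → Fin n) :
    sl l M x i = ∑ b, M (i l) b * x (Function.update i l b) := rfl

theorem inner_eq (x y : Tn n k) : ⟪x, y⟫_ℝ = ∑ i, y i * x i := by
  simp [PiLp.inner_apply]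

/-- The exchange of an entry with a free index. -/
theorem sum_swap (l : Fin k) (F : (Fin k → Fin n) → Fin n → ℝ) :
    ∑ i, ∑ b, F i b = ∑ i, ∑ b, F (Function.update i l b) (i l) := by
  have h1 : ∑ i, ∑ b, F i b = ∑ p : (Fin k → Fin n) × Fin n, F p.1 p.2 := by
    rw [Fintype.sum_prod_type]
  have h2 : ∑ i, ∑ b, F (Function.update i l b) (i l)
      = ∑ p : (Fin k → Fin n) × Fin n, F (Function.update p.1 l p.2) (p.1 l) := by
    rw [Fintype.sum_prod_type]
  rw [h1, h2]
  have hinv : Function.Involutive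
      (fun p : (Fin k → Fin n) × Fin n => (Function.update p.1 l p.2, p.1 l)) := by
    rintro ⟨i, b⟩
    simp
  exact (Equiv.sum_comp hinv.toPerm (fun p : (Fin k → Fin n) × Fin n => F p.1 p.2)).symm

theorem sl_inner (l : Fin k) (M : Matrix (Fin n) (Fin n) ℝ) (x y : Tn n k) :
    ⟪sl l M x, y⟫_ℝ = ⟪x, sl l M.transpose y⟫_ℝ := by
  rw [inner_eq, inner_eq]
  simp only [sl_apply, Finset.mul_sum, Finset.sum_mul, Matrix.transpose_apply]
  rw [sum_swap l]
  refine Finset.sum_congr rfl fun i _ => Finset.sum_congr rfl fun b _ => ?_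
  simp only [Function.update_self, Function.update_idem, Function.update_eq_self]
  ring

theorem sl_sl (l : Fin k) (M N : Matrix (Fin n) (Fin n) ℝ) (x : Tn n k) :
    sl l M (sl l N x) = sl l (M * N) x := by
  ext i
  simp only [sl_apply, Function.update_self, Function.update_idem, Finset.mul_sum,
    Matrix.mul_apply, Finset.sum_mul]
  rw [Finset.sum_comm]
  refine Finset.sum_congr rfl fun b _ => Finset.sum_congr rfl fun c _ => ?_
  ring

theorem sl_add (l : Fin k) (M N : Matrix (Fin n) (Fin n) ℝ) (x : Tn n k) :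
    sl l (M + N) x = sl l M x + sl l N x := by
  ext i
  simp [sl_apply, add_mul, Finset.sum_add_distrib]

theorem sl_smul (l : Fin k) (c : ℝ) (M : Matrix (Fin n) (Fin n) ℝ) (x : Tn n k) :
    sl l (c • M) x = c • sl l M x := by
  ext i
  simp only [sl_apply, Matrix.smul_apply, smul_eq_mul, PiLp.smul_apply, Finset.mul_sum]
  refine Finset.sum_congr rfl fun b _ => ?_
  ring

theorem sl_sum {ι : Type*} (l : Fin k) (s : Finset ι) (M : ι → Matrix (Fin n) (Fin n) ℝ)
    (x : Tn n k) : sl l (∑ j ∈ s, M j) x = ∑ j ∈ s, sl l (M j) x := by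
  classical
  induction s using Finset.induction_on with
  | empty =>
    ext i
    simp [sl_apply]
  | insert j s hj ih => rw [Finset.sum_insert hj, Finset.sum_insert hj, sl_add, ih]

theorem sl_one (l : Fin k) (x : Tn n k) : sl l 1 x = x := by
  ext i
  simp [sl_apply, Matrix.one_apply]

/-- The product of two slot operators for different slots. -/
theorem sl_sl_apply {l m : Fin k} (hlm : l ≠ m) (M N : Matrix (Fin n) (Fin n) ℝ) (x : Tn n k)
    (i : Fin k → Fin n) : sl l M (sl m N x) i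
      = ∑ b, ∑ c, M (i l) b * N (i m) c * x (Function.update (Function.update i l b) m c) := by
  rw [sl_apply]
  refine Finset.sum_congr rfl fun b _ => ?_
  rw [sl_apply, Function.update_of_ne hlm.symm, Finset.mul_sum]
  refine Finset.sum_congr rfl fun c _ => ?_
  ring

/-- The tensors which change their sign under all transpositions. -/
def Alt (n k : ℕ) : Submodule ℝ (Tn n k) where
  carrier := {x | ∀ l m : Fin k, l ≠ m → ∀ i, x (i ∘ Equiv.swap l m) = -x i}
  zero_mem' := by
    intro l m _ i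
    simp
  add_mem' := by
    intro x y hx hy l m hlm i
    simp only [PiLp.add_apply]
    rw [hx l m hlm, hy l m hlm]
    ring
  smul_mem' := by
    intro c x hx l m hlm i
    simp only [PiLp.smul_apply, smul_eq_mul]
    rw [hx l m hlm]
    ring

theorem mem_alt (x : Tn n k) : x ∈ Alt n k ↔
    ∀ l m : Fin k, l ≠ m → ∀ i, x (i ∘ Equiv.swap l m) = -x i := Iff.rfl

theorem update_swap {l m : Fin k} (hlm : l ≠ m) (i : Fin k → Fin n) (b c : Fin n) :
    (Function.update (Function.update i l b) m c) ∘ Equiv.swap l m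
      = Function.update (Function.update i l c) m b := by
  ext j
  congr 1
  rcases eq_or_ne j l with h | h
  · subst h
    simp [hlm]
  · rcases eq_or_ne j m with h' | h'
    · subst h'
      simp [hlm]
    · simp [Equiv.swap_apply_of_ne_of_ne h h', h, h']

/-- The tensor `x` changes its sign under the transpositions of two slots in `S`. -/
def SkewOn (S : Finset (Fin k)) (x : Tn n k) : Prop :=
  ∀ l ∈ S, ∀ m ∈ S, l ≠ m → ∀ i, x (i ∘ Equiv.swap l m) = -x i

theorem skew_double {S : Finset (Fin k)} {x : Tn n k} (hx : SkewOn S x) {l m : Fin k}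
    (hl : l ∈ S) (hm : m ∈ S) (hlm : l ≠ m)
    (v : Fin n → ℝ) : sl l (Matrix.vecMulVec v v) (sl m (Matrix.vecMulVec v v) x) = 0 := by
  ext i
  rw [sl_sl_apply hlm, PiLp.zero_apply]
  have h : ∑ b, ∑ c, v b * v c * x (Function.update (Function.update i l b) m c) = 0 := by
    have h1 : ∑ b, ∑ c, v b * v c * x (Function.update (Function.update i l b) m c)
        = -∑ b, ∑ c, v b * v c * x (Function.update (Function.update i l b) m c) := by
      conv_lhs => rw [Finset.sum_comm]
      rw [← Finset.sum_neg_distrib]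
      refine Finset.sum_congr rfl fun b _ => ?_
      rw [← Finset.sum_neg_distrib]
      refine Finset.sum_congr rfl fun c _ => ?_
      have h2 := hx l hl m hm hlm (Function.update (Function.update i l c) m b)
      rw [update_swap hlm] at h2
      rw [h2]
      ring
    linarith
  have h3 : ∀ b c, Matrix.vecMulVec v v (i l) b * Matrix.vecMulVec v v (i m) c
      * x (Function.update (Function.update i l b) m c)
      = v (i l) * v (i m) * (v b * v c * x (Function.update (Function.update i l b) m c)) := by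
    intro b c
    rw [Matrix.vecMulVec_apply, Matrix.vecMulVec_apply]
    ring
  simp only [h3, ← Finset.mul_sum]
  rw [h, mul_zero]

/-- The number of particles in one state is at most one. -/
theorem fermi {S : Finset (Fin k)} {x : Tn n k} (hx : SkewOn S x) (v : Fin n → ℝ) :
    ∑ m ∈ S, ⟪x, sl m (Matrix.vecMulVec v v) x⟫_ℝ ≤ (∑ b, v b ^ 2) * ‖x‖ ^ 2 := by
  set P := Matrix.vecMulVec v v with hP
  set r := ∑ b, v b ^ 2 with hr
  have hr0 : 0 ≤ r := Finset.sum_nonneg fun b _ => sq_nonneg _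
  have hPt : P.transpose = P := by
    ext a b
    rw [hP, Matrix.transpose_apply, Matrix.vecMulVec_apply, Matrix.vecMulVec_apply]
    ring
  have hPP : P * P = r • P := by
    ext a b
    rw [Matrix.mul_apply, Matrix.smul_apply, hP, smul_eq_mul, hr, Finset.sum_mul]
    refine Finset.sum_congr rfl fun c _ => ?_
    simp only [Matrix.vecMulVec_apply]
    ring
  set G : Tn n k := ∑ m ∈ S, sl m P x with hG
  have hgg : ∀ m ∈ S, ∀ m' ∈ S, ⟪sl m P x, sl m' P x⟫_ℝ
      = if m = m' then r * ⟪x, sl m P x⟫_ℝ else 0 := by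
    intro m hm m' hm'
    rw [sl_inner, hPt]
    split_ifs with h
    · subst h
      rw [sl_sl, hPP, sl_smul, real_inner_smul_right]
    · rw [hP, skew_double hx hm hm' h, inner_zero_right]
  have h2 : ⟪x, G⟫_ℝ = ∑ m ∈ S, ⟪x, sl m P x⟫_ℝ := by
    rw [hG, inner_sum]
  have h1 : ‖G‖ ^ 2 = r * ⟪x, G⟫_ℝ := by
    rw [h2, ← real_inner_self_eq_norm_sq, hG, sum_inner, Finset.mul_sum]
    refine Finset.sum_congr rfl fun m hm => ?_
    rw [inner_sum, Finset.sum_congr rfl fun m' hm' => hgg m hm m' hm']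
    simp [hm]
  have h3 : ⟪x, G⟫_ℝ ≤ ‖x‖ * ‖G‖ := real_inner_le_norm _ _
  have h4 : ‖G‖ ≤ r * ‖x‖ := by
    rcases eq_or_lt_of_le (norm_nonneg G) with h | h
    · rw [← h]; positivity
    · have h5 : ‖G‖ * ‖G‖ ≤ ‖G‖ * (r * ‖x‖) := by
        have := mul_le_mul_of_nonneg_left h3 hr0
        nlinarith
      exact le_of_mul_le_mul_left h5 h
  rw [← h2]
  calc ⟪x, G⟫_ℝ ≤ ‖x‖ * ‖G‖ := h3
    _ ≤ ‖x‖ * (r * ‖x‖) := mul_le_mul_of_nonneg_left h4 (norm_nonneg _)
    _ = r * ‖x‖ ^ 2 := by ring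

theorem slot_norm {S : Finset (Fin k)} {x : Tn n k} (hx : SkewOn S x)
    (B : Matrix (Fin n) (Fin n) ℝ) :
    ∑ l ∈ S, ‖sl l B x‖ ^ 2 ≤ (∑ a, ∑ b, B a b ^ 2) * ‖x‖ ^ 2 := by
  have h1 : ∀ l, ‖sl l B x‖ ^ 2 = ∑ a, ⟪x, sl l (Matrix.vecMulVec (B a) (B a)) x⟫_ℝ := by
    intro l
    rw [← real_inner_self_eq_norm_sq, sl_inner, sl_sl, ← inner_sum, ← sl_sum]
    congr 3
    ext b c
    rw [Matrix.mul_apply, Matrix.sum_apply]
    refine Finset.sum_congr rfl fun a _ => ?_
    rw [Matrix.transpose_apply, Matrix.vecMulVec_apply]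
  rw [Finset.sum_congr rfl fun l _ => h1 l, Finset.sum_comm, Finset.sum_mul]
  exact Finset.sum_le_sum fun a _ => fermi hx (B a)

/-- The derivation given by the matrix `M`. -/
noncomputable def der (M : Matrix (Fin n) (Fin n) ℝ) : Tn n k →ₗ[ℝ] Tn n k := ∑ l, sl l M

theorem der_eq (M : Matrix (Fin n) (Fin n) ℝ) (x : Tn n k) : der M x = ∑ l, sl l M x := by
  simp [der, LinearMap.sum_apply]

/-- The tensor `x` changes its sign under the transposition of two slots with the same value of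
`col` (two slots in the same column). -/
def ColSkew {r : ℕ} (col : Fin k → Fin r) (x : Tn n k) : Prop :=
  ∀ l m : Fin k, l ≠ m → col l = col m → ∀ i, x (i ∘ Equiv.swap l m) = -x i

theorem der_norm {r : ℕ} (col : Fin k → Fin r) {x : Tn n k} (hx : ColSkew col x)
    (B : Matrix (Fin n) (Fin n) ℝ) :
    ‖der B x‖ ^ 2 ≤ r * k * (∑ a, ∑ b, B a b ^ 2) * ‖x‖ ^ 2 := by
  have h1 : ‖der B x‖ ≤ ∑ l : Fin k, ‖sl l B x‖ := by
    rw [der_eq]
    exact norm_sum_le _ _
  have h2 : (∑ l : Fin k, ‖sl l B x‖) ^ 2 ≤ k * ∑ l : Fin k, ‖sl l B x‖ ^ 2 := by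
    have := sq_sum_le_card_mul_sum_sq (s := (Finset.univ : Finset (Fin k)))
      (f := fun l => ‖sl l B x‖)
    simpa using this
  have h3 : ∑ l : Fin k, ‖sl l B x‖ ^ 2 ≤ r * ((∑ a, ∑ b, B a b ^ 2) * ‖x‖ ^ 2) := by
    rw [← Finset.sum_fiberwise (g := col)]
    have h4 : ∀ j ∈ (univ : Finset (Fin r)), ∑ l ∈ univ with col l = j, ‖sl l B x‖ ^ 2
        ≤ (∑ a, ∑ b, B a b ^ 2) * ‖x‖ ^ 2 := by
      intro j _
      refine slot_norm ?_ B
      intro l hl m hm hlm i
      rw [Finset.mem_filter] at hl hm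
      exact hx l m hlm (hl.2.trans hm.2.symm) i
    refine (Finset.sum_le_sum h4).trans ?_
    rw [Finset.sum_const, Finset.card_univ, Fintype.card_fin, nsmul_eq_mul]
  calc ‖der B x‖ ^ 2 ≤ (∑ l : Fin k, ‖sl l B x‖) ^ 2 := by gcongr
    _ ≤ k * ∑ l : Fin k, ‖sl l B x‖ ^ 2 := h2
    _ ≤ k * (r * ((∑ a, ∑ b, B a b ^ 2) * ‖x‖ ^ 2)) :=
      mul_le_mul_of_nonneg_left h3 (Nat.cast_nonneg _)
    _ = r * k * (∑ a, ∑ b, B a b ^ 2) * ‖x‖ ^ 2 := by ring

end Pool.Agent.X160.Ten
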